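import Pool.Agent.Helper2.AV.PDefs

/-!
AllTypes, blocks P1a and P1b: dimensions.
-/

set_option linter.unusedSectionVars false
set_option linter.unusedVariables false

open Module

namespace AV

open MTP

namespace P1

section inv
variable {K : Type*} [Field K] [CharZero K] {E : Type*} [AddCommGroup E] [Module K E]
  [FiniteDimensional K E]

/-- The eigenspaces of an involution. -/
theorem inv_dim (T : E →ₗ[K] E) (hT : ∀ x, T (T x) = x) (s : K) (hs : s * s = 1)
    {F : Submodule K E} (hF : ∀ x, x ∈ F ↔ T x = s • x) :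
    (2 * finrank K F : K) = finrank K E + s * LinearMap.trace K E T := by
  have h2 : (2 : K) ≠ 0 := two_ne_zero
  set P : E →ₗ[K] E := (2 : K)⁻¹ • (1 + s • T) with hP
  have hPm : ∀ x, P x ∈ F := by
    intro x
    rw [hF, hP]
    simp only [LinearMap.smul_apply, LinearMap.add_apply, Module.End.one_apply, map_smul, map_add,
      hT, smul_add, smul_smul]
    rw [show s * ((2 : K)⁻¹ * s) = (2 : K)⁻¹ by linear_combination (2 : K)⁻¹ * hs,
      show (2 : K)⁻¹ * s = s * (2 : K)⁻¹ by ring]
    abel
  have hPf : ∀ x ∈ F, P x = x := by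
    intro x hx
    rw [hF] at hx
    rw [hP]
    simp only [LinearMap.smul_apply, LinearMap.add_apply, Module.End.one_apply, hx, smul_smul, hs,
      one_smul]
    rw [← two_smul K, smul_smul, inv_mul_cancel₀ h2, one_smul]
  have hproj : LinearMap.IsProj F P := ⟨hPm, hPf⟩
  have ht := hproj.trace
  rw [hP, map_smul, map_add, map_smul, LinearMap.trace_one, smul_eq_mul, smul_eq_mul] at ht
  rw [← ht]
  field_simp

end inv

section sym
variable (K : Type*) [Field K] (U : Type*) [AddCommGroup U] [Module K U]

/-- Symmetric (`s = 1`) or antisymmetric (`s = -1`) forms. -/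
def SymF (s : K) : Submodule K (U →ₗ[K] U →ₗ[K] K) where
  carrier := {B | ∀ v w, B w v = s * B v w}
  add_mem' := by
    intro B C hB hC v w
    simp only [LinearMap.add_apply, hB v w, hC v w]
    ring
  zero_mem' := by intro v w; simp
  smul_mem' := by
    intro c B hB v w
    simp only [LinearMap.smul_apply, hB v w, smul_eq_mul]
    ring

variable {K U}
lemma mem_symF {s : K} {B : U →ₗ[K] U →ₗ[K] K} : B ∈ SymF K U s ↔ ∀ v w, B w v = s * B v w :=
  Iff.rfl

variable [CharZero K] [FiniteDimensional K U]

theorem trace_flip : LinearMap.trace K (U →ₗ[K] U →ₗ[K] K)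
    (LinearMap.lflip : (U →ₗ[K] U →ₗ[K] K) ≃ₗ[K] (U →ₗ[K] U →ₗ[K] K)).toLinearMap
    = finrank K U := by
  classical
  let bU := Module.finBasis K U
  let e : (U →ₗ[K] U →ₗ[K] K) ≃ₗ[K] Matrix (Fin (finrank K U)) (Fin (finrank K U)) K :=
    LinearMap.BilinForm.toMatrix bU
  let T : Matrix (Fin (finrank K U)) (Fin (finrank K U)) K →ₗ[K]
      Matrix (Fin (finrank K U)) (Fin (finrank K U)) K :=
    (Matrix.transposeLinearEquiv (Fin (finrank K U)) (Fin (finrank K U)) K K).toLinearMap
  have he : ∀ B i j, e B i j = B (bU i) (bU j) := fun B i j =>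
    LinearMap.BilinForm.toMatrix_apply bU B i j
  have h1 : e.conj (LinearMap.lflip : (U →ₗ[K] U →ₗ[K] K) ≃ₗ[K]
      (U →ₗ[K] U →ₗ[K] K)).toLinearMap = T := by
    apply LinearMap.ext
    intro M
    rw [LinearEquiv.conj_apply_apply]
    ext i j
    rw [he]
    change (e.symm M) (bU j) (bU i) = M j i
    rw [← he, LinearEquiv.apply_symm_apply]
  have h3 := LinearMap.trace_conj' (R := K) (M := U →ₗ[K] U →ₗ[K] K)
      (N := Matrix (Fin (finrank K U)) (Fin (finrank K U)) K) (LinearMap.lflip : (U →ₗ[K] U →ₗ[K] K) ≃ₗ[K]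
      (U →ₗ[K] U →ₗ[K] K)).toLinearMap e
  rw [h1] at h3
  rw [← h3, LinearMap.trace_eq_matrix_trace K (Matrix.stdBasis K _ _), Matrix.trace]
  have h2 : ∀ x : Fin (finrank K U) × Fin (finrank K U),
      Matrix.diag (LinearMap.toMatrix (Matrix.stdBasis K _ _) (Matrix.stdBasis K _ _) T) x =
        if x.1 = x.2 then 1 else 0 := by
    rintro ⟨i, j⟩
    rw [Matrix.diag_apply, LinearMap.toMatrix_apply, Matrix.stdBasis_eq_single]
    have e1 : T (Matrix.single i j 1) = Matrix.stdBasis K _ _ (j, i) := by
      rw [Matrix.stdBasis_eq_single]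
      exact Matrix.transpose_single i j 1
    rw [e1, Basis.repr_self, Finsupp.single_apply]
    by_cases hij : i = j
    · rw [if_pos hij, if_pos (by rw [hij])]
    · rw [if_neg hij, if_neg (fun h => hij (Prod.mk.inj h).2)]
  rw [Finset.sum_congr rfl (fun x _ => h2 x), Fintype.sum_prod_type]
  simp

/-- Dimension of the space of (anti)symmetric forms. -/
theorem finrank_symF (s : K) (hs : s * s = 1) :
    (2 * finrank K (SymF K U s) : K) = (finrank K U : K) * finrank K U + s * finrank K U := by
  have h := inv_dim (K := K) (E := U →ₗ[K] U →ₗ[K] K) (LinearMap.lflip : (U →ₗ[K] U →ₗ[K] K) ≃ₗ[K]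
      (U →ₗ[K] U →ₗ[K] K)).toLinearMap (fun x => rfl) s hs (F := SymF K U s) (by
    intro B
    rw [mem_symF]
    constructor
    · intro h
      ext v w
      exact h v w
    · intro h v w
      have := LinearMap.congr_fun₂ h v w
      exact this)
  rw [h, trace_flip, Module.finrank_linearMap, Module.finrank_linearMap, Module.finrank_self]
  push_cast
  ring

end sym

section pull
variable {K : Type*} [Field K] {W : Type*} [AddCommGroup W] [Module K W] [FiniteDimensional K W]
variable {b : LinearMap.BilinForm K W} (hb : b.Nondegenerate)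
variable {U : Type*} [AddCommGroup U] [Module K U]

/-- The operator of a form pulled back from a quotient. -/
noncomputable def opOf (π : W →ₗ[K] U) : (U →ₗ[K] U →ₗ[K] K) →ₗ[K] Module.End K W where
  toFun B := (b.toDual hb).symm.toLinearMap ∘ₗ (B.compl₁₂ π π)
  map_add' := by
    intro B C
    ext v
    simp only [LinearMap.comp_apply, LinearMap.add_apply]
    rw [← map_add]
    congr 1
  map_smul' := by
    intro c B
    ext v
    simp only [LinearMap.comp_apply, LinearMap.smul_apply, RingHom.id_apply]
    rw [← map_smul]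
    congr 1

lemma opOf_apply (π : W →ₗ[K] U) (B : U →ₗ[K] U →ₗ[K] K) (v w : W) :
    b (opOf hb π B v) w = B (π v) (π w) := by
  change b ((b.toDual hb).symm _) w = _
  rw [LinearMap.BilinForm.apply_toDual_symm_apply]
  rfl

lemma eq_of_form {x y : Module.End K W} (hb : b.Nondegenerate)
    (h : ∀ v w, b (x v) w = b (y v) w) : x = y := by
  ext v
  rw [← sub_eq_zero]
  apply hb.1
  intro w
  rw [map_sub, LinearMap.sub_apply, h, sub_self]

include hb in
theorem finrank_pull (π : W →ₗ[K] U) (hπ : Function.Surjective π) (s : K)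
    (F : Submodule K (Module.End K W))
    (hF : ∀ x, x ∈ F ↔ ∃ B ∈ SymF K U s, ∀ v w, b (x v) w = B (π v) (π w)) :
    finrank K F = finrank K (SymF K U s) := by
  have hinj : Function.Injective (opOf hb π) := by
    intro B C h
    ext u v
    obtain ⟨u, rfl⟩ := hπ u
    obtain ⟨v, rfl⟩ := hπ v
    rw [← opOf_apply hb, ← opOf_apply hb, h]
  have he : F = (SymF K U s).map (opOf hb π) := by
    ext x
    rw [hF, Submodule.mem_map]
    constructor
    · rintro ⟨B, hB, h⟩
      refine ⟨B, hB, ?_⟩
      apply eq_of_form hb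
      intro v w
      rw [opOf_apply, h]
    · rintro ⟨B, hB, rfl⟩
      exact ⟨B, hB, fun v w => opOf_apply hb π B v w⟩
  rw [he]
  exact (LinearEquiv.finrank_eq (Submodule.equivMapOfInjective _ hinj _)).symm

/-- The adjoint. -/
noncomputable def dag : Module.End K W →ₗ[K] Module.End K W where
  toFun x := (b.toDual hb).symm.toLinearMap ∘ₗ (LinearMap.compl₂ b x)
  map_add' := by
    intro x y
    ext v
    simp only [LinearMap.comp_apply, LinearMap.add_apply]
    rw [← map_add]
    congr 1
    ext w
    simp
  map_smul' := by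
    intro c x
    ext v
    simp only [LinearMap.comp_apply, LinearMap.smul_apply, RingHom.id_apply]
    rw [← map_smul]
    congr 1
    ext w
    simp

lemma dag_apply (x : Module.End K W) (v w : W) : b (dag hb x v) w = b v (x w) := by
  change b ((b.toDual hb).symm _) w = _
  rw [LinearMap.BilinForm.apply_toDual_symm_apply]
  rfl

lemma dag_apply' (ha : ∀ v w, b v w = b w v) (x : Module.End K W) (v w : W) :
    b v (dag hb x w) = b (x v) w := by
  rw [ha, dag_apply, ha]

/-- Homomorphisms between images of idempotents. -/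
theorem hom_dim {A B : Module.End K W} (hA : A * A = A) (hB : B * B = B)
    (F : Submodule K (Module.End K W)) (hF : ∀ y, y ∈ F ↔ A * y = y ∧ y * B = y) :
    finrank K F = rk A * rk B := by
  let B' : W →ₗ[K] LinearMap.range B := B.rangeRestrict
  let Φ : (LinearMap.range B →ₗ[K] LinearMap.range A) →ₗ[K] Module.End K W :=
    { toFun := fun f => (LinearMap.range A).subtype ∘ₗ f ∘ₗ B'
      map_add' := by
        intro f g
        ext v
        simp
      map_smul' := by
        intro c f
        ext v
        simp }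
  have hΦ : ∀ f v, Φ f v = (f (B' v) : W) := fun f v => rfl
  have hA' : ∀ u : LinearMap.range A, A u = u := by
    rintro ⟨_, u, rfl⟩
    change A (A u) = A u
    rw [← Module.End.mul_apply, hA]
  have hB' : ∀ v, B' (B v) = B' v := by
    intro v
    apply Subtype.ext
    change B (B v) = B v
    rw [← Module.End.mul_apply, hB]
  have hinj : Function.Injective Φ := by
    intro f g h
    ext u
    obtain ⟨v, rfl⟩ : ∃ v, B' v = u := by
      obtain ⟨v, hv⟩ := u.2
      exact ⟨v, Subtype.ext hv⟩
    rw [← hΦ, ← hΦ, h]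
  have hr : F = LinearMap.range Φ := by
    ext y
    rw [hF, LinearMap.mem_range]
    constructor
    · rintro ⟨h1, h2⟩
      refine ⟨A.rangeRestrict ∘ₗ y ∘ₗ (LinearMap.range B).subtype, ?_⟩
      ext v
      change A (y (B v)) = y v
      rw [← Module.End.mul_apply, ← Module.End.mul_apply, h1, h2]
    · rintro ⟨f, rfl⟩
      constructor
      · ext v
        rw [Module.End.mul_apply, hΦ, hA']
      · ext v
        rw [Module.End.mul_apply, hΦ, hΦ, hB']
  rw [hr, LinearMap.finrank_range_of_inj hinj, Module.finrank_linearMap, rk, rk, mul_comm]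

end pull

section one
variable {K : Type*} [Field K] [CharZero K] {W : Type*} [AddCommGroup W] [Module K W]
  [FiniteDimensional K W]

lemma eq_zero_of_neg {z : Module.End K W} (h : z = -z) : z = 0 := by
  have h2 : (2 : K) • z = 0 := by
    rw [two_smul]
    nth_rewrite 1 [h]
    rw [neg_add_cancel]
  rcases smul_eq_zero.mp h2 with h3 | h3
  · exact absurd h3 two_ne_zero
  · exact h3

lemma one_iff {P x : Module.End K W} (hP : P * P = P) :
    P * x - x * P = x ↔ P * x = x ∧ x * P = 0 := by
  constructor
  · intro h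
    have h1 : P * x * P = 0 := by
      have := congrArg (fun z => P * z) h
      simp only [mul_sub, ← mul_assoc, hP] at this
      rwa [sub_eq_self] at this
    have h2 : x * P = 0 := by
      have := congrArg (fun z => z * P) h
      simp only [sub_mul, mul_assoc, hP] at this
      rw [← mul_assoc, h1, zero_sub] at this
      exact eq_zero_of_neg this.symm
    rw [h2, sub_zero] at h
    exact ⟨h, h2⟩
  · rintro ⟨h1, h2⟩
    rw [h1, h2, sub_zero]

lemma shift_comm {P x : Module.End K W} (c : K) :
    (P - c • 1) * x - x * (P - c • 1) = P * x - x * P := by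
  rw [sub_mul, mul_sub, smul_one_mul, mul_smul_one]
  abel

lemma rk_one : rk (1 : Module.End K W) = finrank K W := by
  rw [rk, Module.End.one_eq_id, LinearMap.range_id, finrank_top]

lemma rk_compl {P : Module.End K W} (hP : P * P = P) : rk P + rk (1 - P) = finrank K W := by
  rw [← rk_one (K := K) (W := W), ← rk_add (p := P) (q := P) hP (by rw [mul_sub, hP, mul_one, sub_self])
    hP (by rw [sub_mul, hP, one_mul, sub_self])]
  congr 1
  abel

end one

end P1

open P1

section main
variable {K : Type*} [Field K] {W : Type*} [AddCommGroup W] [Module K W]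

variable [IsAlgClosed K] [CharZero K] [FiniteDimensional K W] {b : LinearMap.BilinForm K W}

theorem dim_sl [Nontrivial W] : finrank K (slw K W) + 1 = finrank K W * finrank K W := by
  have h := LinearMap.finrank_range_add_finrank_ker (LinearMap.trace K W)
  have hs : LinearMap.range (LinearMap.trace K W) = ⊤ := by
    rw [LinearMap.range_eq_top]
    apply LinearMap.surjective
    intro h0
    have h1 : LinearMap.trace K W 1 = 0 := by rw [h0]; rfl
    rw [LinearMap.trace_one] at h1
    exact (Nat.cast_ne_zero.mpr (finrank_pos (R := K) (M := W)).ne') h1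
  rw [hs, finrank_top, Module.finrank_self, Module.finrank_linearMap] at h
  rw [slw, add_comm]
  exact h

namespace P1

/-- Dimension of the skew operators. -/
theorem dim_skw (hb : b.Nondegenerate) (s : K) (hs : s * s = 1) (ha : ∀ v w, b w v = - s * b v w) :
    (2 * finrank K (skw b) : K) = (finrank K W : K) * finrank K W + s * finrank K W := by
  rw [← finrank_symF (K := K) (U := W) s hs, finrank_pull hb (LinearMap.id : W →ₗ[K] W)
    (fun x => ⟨x, rfl⟩) s]
  intro x
  constructor
  · intro hx
    refine ⟨b.comp x LinearMap.id, ?_, fun v w => rfl⟩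
    intro v w
    change b (x w) v = s * b (x v) w
    rw [hx v w, ha (x w) v]
    linear_combination -(b (x w) v) * hs
  · rintro ⟨B, hB, h⟩ v w
    have h1 := h v w
    have h2 := h w v
    have h3 := hB v w
    have h4 := ha (x w) v
    simp only [LinearMap.id_apply] at h1 h2
    linear_combination h1 + h4 - s * h2 - s * h3 - B v w * hs

/-- The part of degree one for half of an involution. -/
theorem dim_one (hb : b.Nondegenerate) (s : K) (hs : s * s = 1) (ha : ∀ v w, b w v = - s * b v w)
    {P : Module.End K W} (hP : P * P = P) (hsk : IsSk b (P - (2 : K)⁻¹ • 1)) :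
    2 * rk P = finrank K W ∧
      (2 * finrank K (Gone (skw b) (P - (2 : K)⁻¹ • 1)) : K) = (rk P : K) * rk P + s * rk P := by
  have h2 : (2 : K)⁻¹ + (2 : K)⁻¹ = 1 := by
    rw [← two_mul, mul_inv_cancel₀ two_ne_zero]
  have hPQ : ∀ v w, b (P v) w = b v ((1 - P) w) := by
    intro v w
    have h := hsk v w
    simp only [LinearMap.sub_apply, LinearMap.smul_apply, Module.End.one_apply, map_sub, map_smul,
      smul_eq_mul] at h ⊢
    linear_combination h + b v w * h2
  have hQP : ∀ v w, b ((1 - P) v) w = b v (P w) := by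
    intro v w
    have h := hPQ v w
    simp only [LinearMap.sub_apply, Module.End.one_apply, map_sub] at h ⊢
    linear_combination -h
  have hQ : (1 - P) * (1 - P) = 1 - P := by
    rw [mul_sub, mul_one, sub_mul, one_mul, hP, sub_self, sub_zero]
  have hPQ0 : P * (1 - P) = 0 := by rw [mul_sub, mul_one, hP, sub_self]
  have hQP0 : (1 - P) * P = 0 := by rw [sub_mul, one_mul, hP, sub_self]
  have hr1 : rk P = rk (1 - P) := rk_adjoint hb hPQ
  have hr2 := rk_compl hP
  refine ⟨by omega, ?_⟩
  have hfr : finrank K (LinearMap.range (1 - P)) = rk P := hr1.symm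
  rw [← hfr, ← finrank_symF (K := K) (U := LinearMap.range (1 - P)) s hs,
    finrank_pull hb (1 - P).rangeRestrict (LinearMap.surjective_rangeRestrict _) s]
  intro x
  constructor
  · rintro ⟨hx, hx1⟩
    rw [shift_comm, one_iff hP] at hx1
    obtain ⟨hx1, hx2⟩ := hx1
    have hx3 : x * (1 - P) = x := by rw [mul_sub, mul_one, hx2, sub_zero]
    refine ⟨b.comp (x ∘ₗ (LinearMap.range (1 - P)).subtype) (LinearMap.range (1 - P)).subtype,
      ?_, ?_⟩
    · intro v w
      change b (x w) v = s * b (x v) w
      rw [hx v w, ha (x w) v]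
      linear_combination -(b (x w) v) * hs
    · intro v w
      change b (x v) w = b (x ((1 - P) v)) ((1 - P) w)
      rw [← Module.End.mul_apply, hx3, ← hPQ, ← Module.End.mul_apply, hx1]
  · rintro ⟨B, hB, h⟩
    refine ⟨?_, ?_⟩
    · intro v w
      have h1 := h v w
      have h2 := h w v
      have h3 := hB ((1 - P).rangeRestrict v) ((1 - P).rangeRestrict w)
      have h4 := ha (x w) v
      linear_combination h1 + h4 - s * h2 - s * h3 -
        B ((1 - P).rangeRestrict v) ((1 - P).rangeRestrict w) * hs
    · have hq1 : ∀ v, (1 - P).rangeRestrict ((1 - P) v) = (1 - P).rangeRestrict v := by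
        intro v
        apply Subtype.ext
        change (1 - P) ((1 - P) v) = (1 - P) v
        rw [← Module.End.mul_apply, hQ]
      have hq2 : ∀ v, (1 - P).rangeRestrict (P v) = 0 := by
        intro v
        apply Subtype.ext
        change (1 - P) (P v) = 0
        rw [← Module.End.mul_apply, hQP0]
        rfl
      rw [shift_comm, one_iff hP]
      constructor
      · apply eq_of_form hb
        intro v w
        rw [Module.End.mul_apply, hPQ, h, h, hq1]
      · apply eq_of_form hb
        intro v w
        rw [Module.End.mul_apply, h, hq2]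
        simp

end P1

theorem dim_sp (hb : b.Nondegenerate) (ha : b.IsAlt) :
    2 * finrank K (skw b) = finrank K W * (finrank K W + 1) := by
  have h := dim_skw hb 1 (one_mul 1) (fun v w => by
    rw [← LinearMap.BilinForm.IsAlt.neg_eq ha v w]
    ring)
  have h2 : ((2 * finrank K (skw b) : ℕ) : K) = ((finrank K W * (finrank K W + 1) : ℕ) : K) := by
    push_cast
    linear_combination h
  exact_mod_cast h2

theorem dim_so (hb : b.Nondegenerate) (ha : ∀ v w, b v w = b w v) :
    2 * finrank K (skw b) + finrank K W = finrank K W * finrank K W := by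
  have h := dim_skw hb (-1) (by ring) (fun v w => by
    rw [ha v w]
    ring)
  have h2 : ((2 * finrank K (skw b) + finrank K W : ℕ) : K) =
      ((finrank K W * finrank K W : ℕ) : K) := by
    push_cast
    linear_combination h
  exact_mod_cast h2

theorem dim_sl_one {P : Module.End K W} (hP : P * P = P) (h0 : P ≠ 0) (h1 : P ≠ 1) (c : K) :
    finrank K (Gone (slw K W) (P - c • 1)) = MTP.rk P * (finrank K W - MTP.rk P) := by
  have hQ : (1 - P) * (1 - P) = 1 - P := by
    rw [mul_sub, mul_one, sub_mul, one_mul, hP, sub_self, sub_zero]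
  have hr2 := rk_compl hP
  rw [show finrank K W - rk P = rk (1 - P) by omega]
  apply hom_dim hP hQ
  intro y
  constructor
  · rintro ⟨_, hy⟩
    rw [shift_comm, one_iff hP] at hy
    exact ⟨hy.1, by rw [mul_sub, mul_one, hy.2, sub_zero]⟩
  · rintro ⟨h1, h2⟩
    have h3 : y * P = 0 := by
      rwa [mul_sub, mul_one, sub_eq_self] at h2
    refine ⟨?_, by rw [shift_comm, one_iff hP]; exact ⟨h1, h3⟩⟩
    rw [slw, LinearMap.mem_ker, ← h1, LinearMap.trace_mul_comm, h3, map_zero]

theorem dim_sp_one (hb : b.Nondegenerate) (ha : b.IsAlt) {P : Module.End K W} (hP : P * P = P)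
    (hs : IsSk b (P - (2 : K)⁻¹ • 1)) :
    2 * MTP.rk P = finrank K W ∧
      2 * finrank K (Gone (skw b) (P - (2 : K)⁻¹ • 1)) = MTP.rk P * (MTP.rk P + 1) := by
  have h := dim_one hb 1 (one_mul 1) (fun v w => by
    rw [← LinearMap.BilinForm.IsAlt.neg_eq ha v w]
    ring) hP hs
  refine ⟨h.1, ?_⟩
  have h2 : ((2 * finrank K (Gone (skw b) (P - (2 : K)⁻¹ • 1)) : ℕ) : K) =
      ((rk P * (rk P + 1) : ℕ) : K) := by
    push_cast
    linear_combination h.2
  exact_mod_cast h2

theorem dim_so_one (hb : b.Nondegenerate) (ha : ∀ v w, b v w = b w v) {P : Module.End K W}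
    (hP : P * P = P) (hs : IsSk b (P - (2 : K)⁻¹ • 1)) :
    2 * MTP.rk P = finrank K W ∧
      2 * finrank K (Gone (skw b) (P - (2 : K)⁻¹ • 1)) + MTP.rk P = MTP.rk P * MTP.rk P := by
  have h := dim_one hb (-1) (by ring) (fun v w => by
    rw [ha v w]
    ring) hP hs
  refine ⟨h.1, ?_⟩
  have h2 : ((2 * finrank K (Gone (skw b) (P - (2 : K)⁻¹ • 1)) + rk P : ℕ) : K) =
      ((rk P * rk P : ℕ) : K) := by
    push_cast
    linear_combination h.2
  exact_mod_cast h2

theorem dim_so_vec (hb : b.Nondegenerate) (ha : ∀ v w, b v w = b w v) {h : Module.End K W}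
    (hs : IsSk b h) (hh : h * h * h = h) (hr : MTP.rk h = 2) :
    finrank K (Gone (skw b) h) + 2 = finrank K W := by
  have h20 : (2 : K) ≠ 0 := two_ne_zero
  set P₁ : Module.End K W := (2 : K)⁻¹ • (h * h + h) with hP1
  set Pm : Module.End K W := (2 : K)⁻¹ • (h * h - h) with hPm
  set P₀ : Module.End K W := 1 - h * h with hP0
  have e1 : h * P₁ = P₁ := by
    rw [hP1, mul_smul_comm, mul_add, ← mul_assoc, hh, add_comm]
  have e1' : P₁ * h = P₁ := by
    rw [hP1, smul_mul_assoc, add_mul, hh, add_comm]
  have em : h * Pm = -Pm := by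
    rw [hPm, mul_smul_comm, mul_sub, ← mul_assoc, hh, ← smul_neg, neg_sub]
  have em' : Pm * h = -Pm := by
    rw [hPm, smul_mul_assoc, sub_mul, hh, ← smul_neg, neg_sub]
  have e0 : h * P₀ = 0 := by
    rw [hP0, mul_sub, mul_one, ← mul_assoc, hh, sub_self]
  have e0' : P₀ * h = 0 := by
    rw [hP0, sub_mul, one_mul, hh, sub_self]
  have two_half : ∀ z : Module.End K W, (2 : K)⁻¹ • (z + z) = z := by
    intro z
    rw [← two_smul K, smul_smul, inv_mul_cancel₀ h20, one_smul]
  have f11 : P₁ * P₁ = P₁ := by
    nth_rewrite 1 [hP1]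
    rw [smul_mul_assoc, add_mul, mul_assoc, e1, e1, two_half]
  have f1m : P₁ * Pm = 0 := by
    rw [hP1, smul_mul_assoc, add_mul, mul_assoc, em, mul_neg, em, neg_neg, add_neg_cancel,
      smul_zero]
  have fm1 : Pm * P₁ = 0 := by
    rw [hPm, smul_mul_assoc, sub_mul, mul_assoc, e1, e1, sub_self, smul_zero]
  have fmm : Pm * Pm = Pm := by
    nth_rewrite 1 [hPm]
    rw [smul_mul_assoc, sub_mul, mul_assoc, em, mul_neg, em, neg_neg, sub_neg_eq_add, two_half]
  have f01 : P₀ * P₁ = 0 := by
    rw [hP0, sub_mul, one_mul, mul_assoc, e1, e1, sub_self]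
  have f0m : P₀ * Pm = 0 := by
    rw [hP0, sub_mul, one_mul, mul_assoc, em, mul_neg, em, neg_neg, sub_self]
  have f10 : P₁ * P₀ = 0 := by
    rw [hP0, mul_sub, mul_one, ← mul_assoc, e1', e1', sub_self]
  have fm0 : Pm * P₀ = 0 := by
    rw [hP0, mul_sub, mul_one, ← mul_assoc, em', neg_mul, em', neg_neg, sub_self]
  have f00 : P₀ * P₀ = P₀ := by
    nth_rewrite 2 [hP0]
    rw [mul_sub, mul_one, ← mul_assoc, e0', zero_mul, sub_zero]
  have hsum : P₁ + Pm = h * h := by
    rw [hP1, hPm, ← smul_add, show h * h + h + (h * h - h) = h * h + h * h by abel, two_half]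
  have hdiff : P₁ + -Pm = h := by
    rw [hP1, hPm, ← smul_neg, ← smul_add, show h * h + h + -(h * h - h) = h + h by abel, two_half]
  have hone : P₁ + Pm + P₀ = 1 := by
    rw [hsum, hP0]
    abel
  -- ranks
  have hadj : ∀ v w, b (P₁ v) w = b v (Pm w) := by
    intro v w
    have k1 := hs v w
    have k2 := hs (h v) w
    have k3 := hs v (h w)
    simp only [hP1, hPm, LinearMap.smul_apply, LinearMap.add_apply, LinearMap.sub_apply,
      Module.End.mul_apply, map_smul, map_add, map_sub, smul_eq_mul]
    linear_combination (2 : K)⁻¹ * (k1 + k2 - k3)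
  have hadj' : ∀ v w, b (Pm v) w = b v (P₁ w) := by
    intro v w
    rw [ha, ← hadj, ha]
  have r1 : rk P₁ = rk Pm := rk_adjoint hb hadj
  have rneg : rk (-Pm) = rk Pm := by
    rw [rk, rk, LinearMap.range_neg]
  have r2 : rk P₁ + rk Pm = 2 := by
    rw [← hr, ← rneg, ← rk_add (p := P₁) (q := P₁) f11 (by rw [mul_neg, f1m, neg_zero]) f11
      (by rw [neg_mul, fm1, neg_zero]), hdiff]
  have r3 : rk (h * h) = 2 := by
    rw [← r2, ← rk_add (p := P₁) (q := P₁) f11 f1m f11 fm1, hsum]
  have f0s : P₀ * (h * h) = 0 := by rw [← mul_assoc, e0', zero_mul]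
  have fs0 : (h * h) * P₀ = 0 := by rw [mul_assoc, e0, mul_zero]
  have r4 : rk P₀ + 2 = finrank K W := by
    rw [← r3, ← rk_add (p := P₀) (q := P₀) f00 f0s f00 fs0, ← rk_one (K := K) (W := W)]
    congr 1
    rw [hP0]
    abel
  have rm : rk Pm = 1 := by omega
  -- the space of homomorphisms
  let F : Submodule K (Module.End K W) :=
    { carrier := {y | P₀ * y = y ∧ y * Pm = y}
      add_mem' := by
        rintro x y ⟨h1, h2⟩ ⟨h3, h4⟩
        exact ⟨by rw [mul_add, h1, h3], by rw [add_mul, h2, h4]⟩
      zero_mem' := ⟨mul_zero _, zero_mul _⟩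
      smul_mem' := by
        rintro c x ⟨h1, h2⟩
        exact ⟨by rw [mul_smul_comm, h1], by rw [smul_mul_assoc, h2]⟩ }
  have hF : finrank K F = rk P₀ := by
    rw [hom_dim f00 fmm F (fun y => Iff.rfl), rm, mul_one]
  have d1 := dag_apply hb
  have d2 := dag_apply' hb ha
  -- adjoints of elements of F
  have hFd : ∀ y ∈ F, P₁ * dag hb y = dag hb y ∧ dag hb y * P₀ = dag hb y := by
    rintro y ⟨h1, h2⟩
    have hP0s : ∀ v w, b (P₀ v) w = b v (P₀ w) := by
      intro v w
      have k1 := hs (h v) w
      have k2 := hs v (h w)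
      simp only [hP0, LinearMap.sub_apply, Module.End.one_apply, Module.End.mul_apply, map_sub]
      linear_combination -k1 + k2
    constructor
    · apply eq_of_form hb
      intro v w
      rw [Module.End.mul_apply, hadj, d1, d1, ← Module.End.mul_apply, h2]
    · apply eq_of_form hb
      intro v w
      rw [Module.End.mul_apply, d1, d1, hP0s, ← Module.End.mul_apply, h1]
  let Ψ : Module.End K W →ₗ[K] Module.End K W := LinearMap.id - dag hb
  have hΨ : ∀ y, Ψ y = y - dag hb y := fun y => rfl
  have hΨm : ∀ y ∈ F, Ψ y * Pm = y := by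
    intro y hy
    have h1 := (hFd y hy).2
    rw [hΨ, sub_mul, hy.2, ← h1, mul_assoc, f0m, mul_zero, sub_zero]
  have himg : Gone (skw b) h = F.map Ψ := by
    ext x
    rw [Submodule.mem_map]
    constructor
    · rintro ⟨hx, hx1⟩
      have g : h * x = x * h + x := by
        rw [← sub_eq_iff_eq_add', hx1]
      have gm : h * (x * Pm) = 0 := by
        rw [← mul_assoc, g, add_mul, mul_assoc, em, mul_neg, neg_add_cancel]
      have g0 : h * (x * P₀) = x * P₀ := by
        rw [← mul_assoc, g, add_mul, mul_assoc, e0, mul_zero, zero_add]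
      have g1 : h * (x * P₁) = x * P₁ + x * P₁ := by
        rw [← mul_assoc, g, add_mul, mul_assoc, e1]
      have g1' : x * P₁ = 0 := by
        have k : h * (h * (h * (x * P₁))) = h * (x * P₁) := by
          rw [← mul_assoc, ← mul_assoc, hh]
        rw [g1, mul_add, g1, mul_add, mul_add, g1] at k
        have k2 : (6 : K) • (x * P₁) = 0 := by
          have k3 := sub_eq_zero.mpr k
          rw [← k3]
          have : ∀ z : Module.End K W, (6 : K) • z = z + z + (z + z) + (z + z + (z + z)) -
              (z + z) := by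
            intro z
            rw [show (6 : K) = 1 + 1 + 1 + 1 + 1 + 1 by norm_num]
            simp only [add_smul, one_smul]
            abel
          exact this _
        rcases smul_eq_zero.mp k2 with h6 | h6
        · norm_num at h6
        · exact h6
      refine ⟨x * Pm, ⟨?_, ?_⟩, ?_⟩
      · rw [hP0, sub_mul, one_mul, mul_assoc, gm, mul_zero, sub_zero]
      · rw [mul_assoc, fmm]
      · have hd : dag hb (x * Pm) = - (x * P₀) := by
          apply eq_of_form hb
          intro v w
          have k1 : P₁ * x = x * P₀ := by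
            have k2 : P₁ * (x * P₀) = x * P₀ := by
              rw [hP1, smul_mul_assoc, add_mul, mul_assoc, g0, g0, two_half]
            have k3 : P₁ * (x * Pm) = 0 := by
              rw [hP1, smul_mul_assoc, add_mul, mul_assoc, gm, mul_zero, add_zero, smul_zero]
            calc P₁ * x = P₁ * (x * (P₁ + Pm + P₀)) := by rw [hone, mul_one]
              _ = P₁ * (x * P₁) + P₁ * (x * Pm) + P₁ * (x * P₀) := by
                rw [mul_add, mul_add, mul_add, mul_add]
              _ = x * P₀ := by rw [g1', k2, k3, mul_zero, zero_add, zero_add]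
          rw [d1, ← k1]
          change b v (x (Pm w)) = b ((-(P₁ * x)) v) w
          rw [LinearMap.neg_apply, Module.End.mul_apply, map_neg, LinearMap.neg_apply, hadj,
            hx, neg_neg]
        rw [hΨ, hd, sub_neg_eq_add]
        calc x * Pm + x * P₀ = x * (P₁ + Pm + P₀) := by
              rw [mul_add, mul_add, g1', zero_add]
          _ = x := by rw [hone, mul_one]
    · rintro ⟨y, hy, rfl⟩
      obtain ⟨k1, k2⟩ := hFd y hy
      refine ⟨?_, ?_⟩
      · intro v w
        rw [hΨ]
        simp only [LinearMap.sub_apply, map_sub]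
        rw [d1, d2]
        ring
      · have m1 : h * y = 0 := by rw [← hy.1, ← mul_assoc, e0, zero_mul]
        have m2 : y * h = -y := by
          nth_rewrite 1 [← hy.2]
          rw [mul_assoc, em', mul_neg, hy.2]
        have m3 : h * dag hb y = dag hb y := by
          nth_rewrite 1 [← k1]
          rw [← mul_assoc, e1, k1]
        have m4 : dag hb y * h = 0 := by
          rw [← k2, mul_assoc, e0', mul_zero]
        rw [hΨ, mul_sub, sub_mul, m1, m2, m3, m4]
        abel
  have hfin : finrank K (Gone (skw b) h) = finrank K F := by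
    rw [himg]
    have hinj : Set.InjOn Ψ F := by
      intro y hy z hz hyz
      rw [← hΨm y hy, ← hΨm z hz, hyz]
    have : Function.Injective (Ψ.domRestrict F) := by
      intro y z hyz
      exact Subtype.ext (hinj y.2 z.2 hyz)
    rw [← LinearMap.range_domRestrict, LinearMap.finrank_range_of_inj this]
  rw [hfin, hF, r4]

end main

end AV
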